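import Pool.Agent.H56.KAL.Stmts

/-!
# The list lemma

A real function on a grid which is close, on a set of density `ρ`, to many polynomials of bounded
degree: up to an error which is polynomial in `1 / ρ` there are at most `2 / ρ` of them.
-/

set_option autoImplicit false

namespace Pool.KAL

open Finset Real MeasureTheory

/-- The list lemma: all the polynomials which agree with `f` up to `E` on a set of density `ρ` are
close, on the whole box, to one of at most `2 / ρ` of them. -/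
def LSTStmt : Prop :=
  ∀ n k : ℕ, ∃ C : ℕ, 1 ≤ C ∧ ∀ (N : ℕ) (f : (Fin n → Fin N) → ℝ)
    (QQ : Set (MvPolynomial (Fin n) ℝ)) (ρ E : ℝ),
    0 < ρ → ρ ≤ 1 → 0 ≤ E → (C : ℝ) ≤ ρ ^ C * N →
    (∀ Q ∈ QQ, (∀ i, Q.degreeOf i ≤ k) ∧ ρ * (N : ℝ) ^ n ≤
      ((univ.filter fun x : Fin n → Fin N =>
        |f x - MvPolynomial.eval (fun i => ((x i : ℕ) : ℝ)) Q| ≤ E).card : ℝ)) →
    ∃ L : Finset (MvPolynomial (Fin n) ℝ), ↑L ⊆ QQ ∧ (L.card : ℝ) ≤ 2 / ρ ∧
      ∀ Q ∈ QQ, ∃ Q' ∈ L, ∀ y : Fin n → ℝ, (∀ i, |y i| ≤ N) →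
        |MvPolynomial.eval y Q - MvPolynomial.eval y Q'| ≤ C * (1 / ρ) ^ C * E

/-- Sets of density `ρ` with pairwise intersections of density at most `ρ ^ 2 / 4` are few. -/
theorem LST.count {Ω ι : Type*} [Fintype Ω] [DecidableEq Ω] [DecidableEq ι] (L : Finset ι)
    (A : ι → Finset Ω) (ρ W : ℝ) (hW : (Fintype.card Ω : ℝ) = W) (hρ : 0 < ρ) (hΩ : 0 < W)
    (hA : ∀ q ∈ L, ρ * W ≤ ((A q).card : ℝ))
    (hAB : ∀ q ∈ L, ∀ q' ∈ L, q' ≠ q → ((A q ∩ A q').card : ℝ) ≤ ρ ^ 2 / 4 * W) :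
    (L.card : ℝ) ≤ 2 / ρ := by
  classical
  set g : ι → Ω → ℝ := fun q x => if x ∈ A q then 1 else 0 with hg
  have h1 : ∀ q, ∑ x, g q x = ((A q).card : ℝ) := by
    intro q
    simp [hg]
  have h2 : ∀ q q', ∑ x, g q x * g q' x = ((A q ∩ A q').card : ℝ) := by
    intro q q'
    have : ∀ x, g q x * g q' x = if x ∈ A q ∩ A q' then (1 : ℝ) else 0 := by
      intro x
      simp only [hg, mem_inter]
      by_cases h1 : x ∈ A q <;> by_cases h2 : x ∈ A q' <;> simp [h1, h2]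
    rw [sum_congr rfl (fun x _ => this x), ← sum_filter, sum_const, nsmul_eq_mul, mul_one,
      filter_mem_eq_inter, univ_inter]
  set S : ℝ := ∑ q ∈ L, ((A q).card : ℝ) with hS
  have hS1 : ∑ x, ∑ q ∈ L, g q x = S := by
    rw [sum_comm]
    exact sum_congr rfl (fun q _ => h1 q)
  have hlow : (L.card : ℝ) * (ρ * W) ≤ S := by
    have := card_nsmul_le_sum L (fun q => ((A q).card : ℝ)) (ρ * W) hA
    simpa [nsmul_eq_mul] using this
  have hcs : S ^ 2 ≤ W * ∑ x, (∑ q ∈ L, g q x) ^ 2 := by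
    have := sq_sum_le_card_mul_sum_sq (s := (univ : Finset Ω)) (f := fun x => ∑ q ∈ L, g q x)
    rw [hS1, card_univ, hW] at this
    exact this
  have hsq : ∑ x, (∑ q ∈ L, g q x) ^ 2 = ∑ q ∈ L, ∑ q' ∈ L, ((A q ∩ A q').card : ℝ) := by
    have : ∀ x, (∑ q ∈ L, g q x) ^ 2 = ∑ q ∈ L, ∑ q' ∈ L, g q x * g q' x := by
      intro x
      rw [sq, sum_mul_sum]
    rw [sum_congr rfl (fun x _ => this x), sum_comm]
    refine sum_congr rfl (fun q _ => ?_)
    rw [sum_comm]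
    exact sum_congr rfl (fun q' _ => h2 q q')
  have hrow : ∀ q ∈ L, ∑ q' ∈ L, ((A q ∩ A q').card : ℝ) ≤
      ((A q).card : ℝ) + L.card * (ρ ^ 2 / 4 * W) := by
    intro q hq
    have hterm : ∀ q' ∈ L, ((A q ∩ A q').card : ℝ) ≤
        (if q' = q then ((A q).card : ℝ) else 0) + ρ ^ 2 / 4 * W := by
      intro q' hq'
      by_cases h : q' = q
      · subst h
        rw [if_pos rfl, inter_self]
        have : 0 ≤ ρ ^ 2 / 4 * W := by positivity
        linarith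
      · rw [if_neg h, zero_add]
        exact hAB q hq q' hq' h
    refine (sum_le_sum hterm).trans (le_of_eq ?_)
    rw [sum_add_distrib, sum_ite_eq' L q, if_pos hq, sum_const, nsmul_eq_mul]
  have hup : ∑ q ∈ L, ∑ q' ∈ L, ((A q ∩ A q').card : ℝ) ≤
      S + (L.card : ℝ) * (L.card * (ρ ^ 2 / 4 * W)) := by
    refine (sum_le_sum hrow).trans (le_of_eq ?_)
    rw [sum_add_distrib, sum_const, nsmul_eq_mul]
  have hmain : S ^ 2 ≤ W * S + S ^ 2 / 4 := by
    have h3 : S ^ 2 ≤ W * (S + (L.card : ℝ) * (L.card * (ρ ^ 2 / 4 * W))) := by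
      rw [hsq] at hcs
      exact hcs.trans (mul_le_mul_of_nonneg_left hup hΩ.le)
    have h4 : ((L.card : ℝ) * (ρ * W)) ^ 2 ≤ S ^ 2 :=
      pow_le_pow_left₀ (by positivity) hlow 2
    nlinarith
  rcases (Nat.cast_nonneg L.card : (0 : ℝ) ≤ L.card).eq_or_lt with h0 | h0
  · rw [← h0]
    positivity
  have hSpos : 0 < S := lt_of_lt_of_le (by positivity) hlow
  have h5 : S ≤ 2 * W := by
    by_contra hcon
    push Not at hcon
    nlinarith
  rw [le_div_iff₀ hρ]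
  have h6 : (L.card : ℝ) * ρ * W ≤ 2 * W := by
    calc (L.card : ℝ) * ρ * W = (L.card : ℝ) * (ρ * W) := by ring
      _ ≤ S := hlow
      _ ≤ 2 * W := h5
  exact le_of_mul_le_mul_right h6 hΩ

/-- Maximal separated lists. -/
theorem LST.exists_max {α : Type*} [DecidableEq α] (QQ : Set α) (far : α → α → Prop)
    (hsymm : ∀ a b, far a b → far b a) (B : ℝ)
    (hB : ∀ L : Finset α, ↑L ⊆ QQ → (∀ a ∈ L, ∀ b ∈ L, a ≠ b → far a b) → (L.card : ℝ) ≤ B) :
    ∃ L : Finset α, ↑L ⊆ QQ ∧ (L.card : ℝ) ≤ B ∧ ∀ a ∈ QQ, a ∈ L ∨ ∃ b ∈ L, ¬ far a b := by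
  classical
  set M : Set ℕ := {m | ∃ L : Finset α, ↑L ⊆ QQ ∧ (∀ a ∈ L, ∀ b ∈ L, a ≠ b → far a b) ∧
    L.card = m} with hM
  have hne : M.Nonempty := ⟨0, ∅, by simp, by simp, by simp⟩
  have hbd : BddAbove M := by
    refine ⟨⌈B⌉₊, ?_⟩
    rintro m ⟨L, h1, h2, rfl⟩
    exact_mod_cast (hB L h1 h2).trans (Nat.le_ceil B)
  obtain ⟨L, h1, h2, h3⟩ := Nat.sSup_mem hne hbd
  refine ⟨L, h1, hB L h1 h2, ?_⟩
  intro a ha
  by_contra hcon
  push Not at hcon
  obtain ⟨haL, hfar⟩ := hcon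
  have hmem : (insert a L).card ∈ M := by
    refine ⟨insert a L, ?_, ?_, rfl⟩
    · intro x hx
      rw [coe_insert] at hx
      rcases hx with hx | hx
      · rw [hx]
        exact ha
      · exact h1 hx
    · intro x hx y hy hxy
      rcases mem_insert.1 hx with hx' | hx' <;> rcases mem_insert.1 hy with hy' | hy'
      · exact absurd (hx'.trans hy'.symm) hxy
      · rw [hx']
        exact hfar y hy'
      · rw [hy']
        exact hsymm _ _ (hfar x hx')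
      · exact h2 x hx' y hy' hxy
  have := le_csSup hbd hmem
  rw [← h3, card_insert_of_notMem haL] at this
  omega

/-- The list lemma. -/
theorem lst_thm (h : RMNStmt) : LSTStmt := by
  classical
  intro n k
  obtain ⟨C₀, hC₀, hR⟩ := h n k
  have h4pos : 1 ≤ 4 ^ C₀ := Nat.one_le_pow _ _ (by norm_num)
  have hC2 : 2 * C₀ ≤ 2 * C₀ * 4 ^ C₀ := Nat.le_mul_of_pos_right _ (by positivity)
  refine ⟨2 * C₀ * 4 ^ C₀, by omega, ?_⟩
  intro N f QQ ρ E hρ hρ1 hE hN hQ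
  set C : ℕ := 2 * C₀ * 4 ^ C₀ with hC
  have hCcast : (C : ℝ) = 2 * C₀ * 4 ^ C₀ := by rw [hC]; push_cast; ring
  have hC₀r : (1 : ℝ) ≤ C₀ := by exact_mod_cast hC₀
  have h4r : (1 : ℝ) ≤ (4 : ℝ) ^ C₀ := one_le_pow₀ (by norm_num)
  have hCpos : (0 : ℝ) < C := by
    rw [hCcast]
    positivity
  have hNpos : (0 : ℝ) < N := by
    by_contra hcon
    have hN0 : (N : ℝ) = 0 := le_antisymm (not_lt.1 hcon) (Nat.cast_nonneg N)
    rw [hN0, mul_zero] at hN
    linarith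
  have hWpos : (0 : ℝ) < (N : ℝ) ^ n := by positivity
  have hcard : (Fintype.card (Fin n → Fin N) : ℝ) = (N : ℝ) ^ n := by
    simp
  set far : MvPolynomial (Fin n) ℝ → MvPolynomial (Fin n) ℝ → Prop := fun Q Q' =>
    ∃ y : Fin n → ℝ, (∀ i, |y i| ≤ N) ∧
      C * (1 / ρ) ^ C * E < |MvPolynomial.eval y Q - MvPolynomial.eval y Q'| with hfar
  have hsymm : ∀ a b, far a b → far b a := by
    rintro a b ⟨y, hy, hlt⟩
    refine ⟨y, hy, ?_⟩
    rw [abs_sub_comm]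
    exact hlt
  have hbound : ∀ L : Finset (MvPolynomial (Fin n) ℝ), ↑L ⊆ QQ →
      (∀ a ∈ L, ∀ b ∈ L, a ≠ b → far a b) → (L.card : ℝ) ≤ 2 / ρ := by
    intro L hL hsep
    refine LST.count L (fun Q => univ.filter fun x : Fin n → Fin N =>
      |f x - MvPolynomial.eval (fun i => ((x i : ℕ) : ℝ)) Q| ≤ E) ρ ((N : ℝ) ^ n) hcard hρ hWpos
      (fun q hq => (hQ q (hL hq)).2) ?_
    intro q hq q' hq' hne
    by_contra hcon
    push Not at hcon
    obtain ⟨y, hy, hlt⟩ := hsep q hq q' hq' (Ne.symm hne)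
    have hdeg : ∀ i, (q - q').degreeOf i ≤ k := fun i =>
      (MvPolynomial.degreeOf_sub_le i q q').trans
        (max_le ((hQ q (hL hq)).1 i) ((hQ q' (hL hq')).1 i))
    have hρ' : 0 < ρ ^ 2 / 4 := by positivity
    have hρ'1 : ρ ^ 2 / 4 ≤ 1 := by nlinarith
    have hN' : (C₀ : ℝ) ≤ (ρ ^ 2 / 4) ^ C₀ * N := by
      have h1 : ρ ^ C ≤ ρ ^ (2 * C₀) := pow_le_pow_of_le_one hρ.le hρ1 hC2
      have h2 : (C : ℝ) ≤ ρ ^ (2 * C₀) * N := hN.trans (mul_le_mul_of_nonneg_right h1 hNpos.le)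
      rw [div_pow, ← pow_mul, div_mul_eq_mul_div, le_div_iff₀ (by positivity)]
      rw [hCcast] at h2
      have h3 : (0 : ℝ) ≤ C₀ * 4 ^ C₀ := by positivity
      linarith
    have hkey := hR N (q - q') (ρ ^ 2 / 4) 1 (2 * E) hdeg hρ' hρ'1 hN' le_rfl (by linarith) ?_ y
      (fun i => by rw [one_mul]; exact hy i)
    · rw [map_sub] at hkey
      refine absurd (hlt.trans_le hkey) (not_lt.2 ?_)
      have h5 : (1 / (ρ ^ 2 / 4)) ^ C₀ = 4 ^ C₀ * (1 / ρ) ^ (2 * C₀) := by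
        rw [pow_mul, ← mul_pow]
        congr 1
        field_simp
      rw [h5]
      have h6 : (1 / ρ) ^ (2 * C₀) ≤ (1 / ρ) ^ C :=
        pow_le_pow_right₀ (by rw [le_div_iff₀ hρ]; linarith) hC2
      have h7 : (C : ℝ) * (1 / ρ) ^ (2 * C₀) * E ≤ C * (1 / ρ) ^ C * E := by
        refine mul_le_mul_of_nonneg_right (mul_le_mul_of_nonneg_left h6 hCpos.le) hE
      refine le_trans (le_of_eq ?_) h7
      rw [hCcast]
      ring
    · refine hcon.le.trans ?_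
      have : (univ.filter fun x : Fin n → Fin N =>
          |f x - MvPolynomial.eval (fun i => ((x i : ℕ) : ℝ)) q| ≤ E) ∩
          (univ.filter fun x : Fin n → Fin N =>
          |f x - MvPolynomial.eval (fun i => ((x i : ℕ) : ℝ)) q'| ≤ E) ⊆
          (univ.filter fun x : Fin n → Fin N =>
          |MvPolynomial.eval (fun i => ((x i : ℕ) : ℝ)) (q - q')| ≤ 2 * E) := by
        intro x hx
        simp only [mem_inter, mem_filter, mem_univ, true_and] at hx ⊢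
        rw [map_sub]
        obtain ⟨h1, h2⟩ := hx
        rw [abs_le] at h1 h2 ⊢
        constructor <;> linarith [h1.1, h1.2, h2.1, h2.2]
      exact_mod_cast card_le_card this
  obtain ⟨L, h1, h2, h3⟩ := LST.exists_max QQ far hsymm (2 / ρ) hbound
  refine ⟨L, h1, h2, ?_⟩
  intro Q hQQ
  rcases h3 Q hQQ with h4 | ⟨Q', hQ', hnot⟩
  · refine ⟨Q, h4, fun y _ => ?_⟩
    rw [sub_self, abs_zero]
    positivity
  · refine ⟨Q', hQ', fun y hy => ?_⟩
    by_contra hcon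
    exact hnot ⟨y, hy, not_le.1 hcon⟩

end Pool.KAL
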