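import Pool.Agent.H56.KAL.Stmts
import Pool.Agent.H28.KVA.PIN

/-!
# Independence and invariance under translations

A position `X` which is nearly independent of a label `o`, and which is the sum of a variable `A`
nearly independent of `o` and of a displacement `g (o)`, has a law which is nearly invariant under
the translations `g (s) - g (s')`. A law on the integers which is nearly invariant under a
translation has full digits at all coarser rows.
-/

set_option autoImplicit false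

namespace Pool.KAL

open Finset Real MeasureTheory
open Pool.Agent.H49.Ent Pool.Agent.H32.Dense Pool.STK Pool.KAF

/-- The law of `(X, V)` changes by at most `ε` in total variation if `X` is replaced by
`X + x`. -/
def TIV {Ω G U : Type} [Fintype Ω] [Add G] (p : Ω → ℝ) (X : Ω → G) (V : Ω → U) (x : G)
    (ε : ℝ) : Prop :=
  ∀ E : Set (G × U), |Pr p {ω | (X ω, V ω) ∈ E} - Pr p {ω | (X ω + x, V ω) ∈ E}| ≤ ε

/-- The law of a sample and of an independent uniform vector with coordinates in `[0, N)`. -/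
noncomputable def smp {Ω : Type} (d N : ℕ) (p : Ω → ℝ) (w : Ω × (Fin d → Fin N)) : ℝ :=
  p w.1 / (N : ℝ) ^ d

/-- The smoothed vector. -/
def smX {Ω : Type} {d N : ℕ} (X : Ω → Fin d → ℤ) (w : Ω × (Fin d → Fin N)) : Fin d → ℤ :=
  fun i => X w.1 i + ((w.2 i : ℕ) : ℤ)

/-- TI0. Change of context. -/
def TI0Stmt : Prop :=
  ∀ (Ω S T β β' : Type) [Fintype Ω] (p : Ω → ℝ) (X : Ω → S) (Y : Ω → T) (b : Ω → β)
    (b' : Ω → β'), (∀ ω, 0 ≤ p ω) →
    Pool.KVA.MI p X Y b ≤ Pool.KVA.MI p X Y b' + CH p b b' + CH p b' b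

/-- TI1. Two-sided independence implies invariance under the differences of the displacements. -/
def TI1Stmt : Prop :=
  ∀ (d N : ℕ) (Ω S U : Type) [Fintype Ω] (p : Ω → ℝ) (X A : Ω → Fin d → ℤ) (V : Ω → U)
    (o : Ω → S) (g : S → Fin d → ℤ) (B : Set Ω) (R e₁ e₂ : ℝ) (s s' : S), IsLaw p → 0 < N →
    0 ≤ R → (∀ ω, ω ∉ B → ∀ i, |((X ω i - A ω i - g (o ω) i : ℤ) : ℝ)| ≤ R) →
    H p (fun ω => (X ω, V ω)) + H p o - H p (fun ω => ((X ω, V ω), o ω)) ≤ e₁ →
    H p (fun ω => (A ω, V ω)) + H p o - H p (fun ω => ((A ω, V ω), o ω)) ≤ e₂ →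
    0 < law p o s → 0 < law p o s' →
    TIV (smp d N p) (smX (N := N) X) (fun w => V w.1) (g s - g s')
      ((Real.sqrt e₁ + Real.sqrt e₂ + Pr p B) / law p o s +
        (Real.sqrt e₁ + Real.sqrt e₂ + Pr p B) / law p o s' + 2 * (d * R / N))

/-- TI2. Subadditivity. -/
def TI2Stmt : Prop :=
  ∀ (Ω U G : Type) [Fintype Ω] [AddCommGroup G] (p : Ω → ℝ) (X : Ω → G) (V : Ω → U) (x y : G)
    (ε ε' : ℝ), TIV p X V x ε → TIV p X V y ε' →
    TIV p X V (x + y) (ε + ε') ∧ TIV p X V (-x) ε ∧ ∀ j : ℕ, TIV p X V (j • x) (j * ε)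

/-- TI3. A law on the integers which is nearly invariant under a translation has full digits at
the coarser rows. -/
def TI3Stmt : Prop :=
  ∀ (Ω U : Type) [Fintype Ω] (p : Ω → ℝ) (X : Ω → ℤ) (V : Ω → U) (a B x M : ℕ) (e : ℝ),
    IsLaw p → 0 < a → a ∣ B → 0 < B → a ≤ x → M * x ≤ 2 * B + x → 2 ≤ M → 0 ≤ e →
    TIV p X V (x : ℤ) e →
    (1 - 2 * (M * e)) * Real.log (M / 2) - 2 ≤
      CH p (fun ω => X ω / (a : ℤ)) (fun ω => (X ω / (B : ℤ), V ω))

/-! ### Change of context -/

theorem ti0_thm : TI0Stmt := by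
  intro Ω S T β β' _ p X Y b b' hp
  unfold Pool.KVA.MI
  have c1 := CH_chain hp X Y b
  have c2 := CH_chain hp X Y b'
  have s1 := CH_chain hp Y X b
  have s2 := CH_chain hp Y X b'
  have t1 : CH p (fun ω => (Y ω, X ω)) b = CH p (fun ω => (X ω, Y ω)) b := by
    refine CH_congr hp ?_ ?_ ?_ ?_
    · intro ω ω' _ _ h
      exact Prod.ext (Prod.ext_iff.1 (Prod.ext_iff.1 h).1).2 (Prod.ext_iff.1 (Prod.ext_iff.1 h).1).1
    · intro ω ω' _ _ h
      exact Prod.ext (Prod.ext_iff.1 (Prod.ext_iff.1 h).1).2 (Prod.ext_iff.1 (Prod.ext_iff.1 h).1).1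
    · intro ω ω' _ _ h
      exact h
    · intro ω ω' _ _ h
      exact h
  have t2 : CH p (fun ω => (Y ω, X ω)) b' = CH p (fun ω => (X ω, Y ω)) b' := by
    refine CH_congr hp ?_ ?_ ?_ ?_
    · intro ω ω' _ _ h
      exact Prod.ext (Prod.ext_iff.1 (Prod.ext_iff.1 h).1).2 (Prod.ext_iff.1 (Prod.ext_iff.1 h).1).1
    · intro ω ω' _ _ h
      exact Prod.ext (Prod.ext_iff.1 (Prod.ext_iff.1 h).1).2 (Prod.ext_iff.1 (Prod.ext_iff.1 h).1).1
    · intro ω ω' _ _ h
      exact h
    · intro ω ω' _ _ h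
      exact h
  -- the entropy of `Y` given `b`
  have a1 := CH_le_add hp Y b' b
  have a2 : CH p Y (fun ω => (b' ω, b ω)) ≤ CH p Y b' := by
    refine CH_mono_cond hp ?_
    intro ω ω' _ _ h
    exact (Prod.ext_iff.1 h).1
  -- the entropy of `Y` given `X` and `b`
  have a3 : CH p Y (fun ω => (b ω, (X ω, b' ω))) ≤ CH p Y (fun ω => (X ω, b ω)) := by
    refine CH_mono_cond hp ?_
    intro ω ω' _ _ h
    exact Prod.ext (Prod.ext_iff.1 (Prod.ext_iff.1 h).2).1 (Prod.ext_iff.1 h).1
  have a4 := CH_le_add hp Y b (fun ω => (X ω, b' ω))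
  have a5 : CH p b (fun ω => (X ω, b' ω)) ≤ CH p b b' := by
    refine CH_mono_cond hp ?_
    intro ω ω' _ _ h
    exact (Prod.ext_iff.1 h).2
  linarith only [s1, s2, t1, t2, a1, a2, a3, a4, a5]

/-! ### Subadditivity -/

namespace TI

lemma Pr_eq {Ω : Type} [Fintype Ω] (p : Ω → ℝ) (E : Set Ω) [DecidablePred (· ∈ E)] :
    Pr p E = ∑ ω, if ω ∈ E then p ω else 0 := by
  classical
  unfold Pr law
  refine Finset.sum_congr rfl fun ω _ => ?_
  by_cases h : ω ∈ E
  · simp [h]
  · simp [h]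

lemma Pr_congr {Ω : Type} [Fintype Ω] (p : Ω → ℝ) {E E' : Set Ω} (h : ∀ ω, ω ∈ E ↔ ω ∈ E') :
    Pr p E = Pr p E' := by
  rw [show E = E' from Set.ext h]

end TI

open TI

theorem ti2_thm : TI2Stmt := by
  intro Ω U G _ _ p X V x y ε ε' hx hy
  have key : ∀ (x y : G) (ε ε' : ℝ), TIV p X V x ε → TIV p X V y ε' →
      TIV p X V (x + y) (ε + ε') := by
    intro x y ε ε' hx hy E
    have h1 := hx {z | (z.1 + y, z.2) ∈ E}
    have h2 := hy E
    have e1 : Pr p {ω | (X ω, V ω) ∈ {z : G × U | (z.1 + y, z.2) ∈ E}} =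
        Pr p {ω | (X ω + y, V ω) ∈ E} := Pr_congr p fun ω => Iff.rfl
    have e2 : Pr p {ω | (X ω + x, V ω) ∈ {z : G × U | (z.1 + y, z.2) ∈ E}} =
        Pr p {ω | (X ω + (x + y), V ω) ∈ E} := Pr_congr p fun ω => by
      simp only [Set.mem_ofPred_eq, add_assoc]
    rw [e1, e2] at h1
    rw [abs_le] at h1 h2 ⊢
    constructor <;> linarith only [h1, h2, h1.1, h1.2, h2.1, h2.2]
  refine ⟨key x y ε ε' hx hy, ?_, ?_⟩
  · intro E
    have h1 := hx {z | (z.1 - x, z.2) ∈ E}
    have e1 : Pr p {ω | (X ω, V ω) ∈ {z : G × U | (z.1 - x, z.2) ∈ E}} =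
        Pr p {ω | (X ω + -x, V ω) ∈ E} := Pr_congr p fun ω => by
      simp only [Set.mem_ofPred_eq, sub_eq_add_neg]
    have e2 : Pr p {ω | (X ω + x, V ω) ∈ {z : G × U | (z.1 - x, z.2) ∈ E}} =
        Pr p {ω | (X ω, V ω) ∈ E} := Pr_congr p fun ω => by
      simp only [Set.mem_ofPred_eq, add_sub_cancel_right]
    rw [e1, e2] at h1
    rwa [abs_sub_comm] at h1
  · intro j
    induction j with
    | zero =>
      intro E
      simp
    | succ j ih =>
      have h := key (j • x) x (j * ε) ε ih hx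
      rw [succ_nsmul]
      have e : ((j + 1 : ℕ) : ℝ) * ε = j * ε + ε := by push_cast; ring
      rw [e]
      exact h

/-! ### Invariance under a translation and full rows -/

namespace TI

variable {Ω U : Type} [Fintype Ω]

lemma Pr_eq_sum_law {T : Type} [DecidableEq T] (p : Ω → ℝ) (Y : Ω → T) (F : Finset T) :
    Pr p {ω | Y ω ∈ F} = ∑ s ∈ F, law p Y s := by
  classical
  rw [Pr_eq]
  unfold law
  rw [Finset.sum_comm]
  refine Finset.sum_congr rfl fun ω _ => ?_
  by_cases h : Y ω ∈ F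
  · rw [Finset.sum_eq_single (Y ω)]
    · rw [if_pos rfl, if_pos (by exact h)]
    · intro b _ hb
      rw [if_neg hb.symm]
    · intro h'
      exact absurd h h'
  · rw [Finset.sum_eq_zero]
    · rw [if_neg (by exact h)]
    · intro b hb
      rw [if_neg]
      intro h'
      exact h (by rw [h']; exact hb)

/-- The mean of the ratio of the probabilities of two neighbouring values. -/
lemma ratio_le {T : Type} (p : Ω → ℝ) (hp : IsLaw p) (Y : Ω → T) (φ : T → T)
    (hφ : Function.Injective φ) :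
    ∑ ω, p ω * (law p Y (φ (Y ω)) / law p Y (Y ω)) ≤ 1 := by
  classical
  rw [sum_mul_eq_sum_image p Y (fun s => law p Y (φ s) / law p Y s)]
  have h1 : ∀ s ∈ univ.image Y, law p Y s * (law p Y (φ s) / law p Y s) ≤ law p Y (φ s) := by
    intro s _
    have h0 := law_nonneg hp.nonneg Y s
    have h0' := law_nonneg hp.nonneg Y (φ s)
    rcases h0.eq_or_lt with h | h
    · rw [← h]
      simpa using h0'
    · rw [mul_div_cancel₀ _ h.ne']
  refine (Finset.sum_le_sum h1).trans ?_
  rw [← hp.sum_one]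
  unfold law
  rw [Finset.sum_comm]
  refine Finset.sum_le_sum fun ω _ => ?_
  by_cases hex : ∃ s ∈ univ.image Y, Y ω = φ s
  · obtain ⟨s, hs, he⟩ := hex
    rw [Finset.sum_eq_single s]
    · rw [if_pos he]
    · intro b _ hb
      rw [if_neg]
      intro hb'
      exact hb (hφ (hb'.symm.trans he))
    · intro h
      exact absurd hs h
  · rw [Finset.sum_eq_zero]
    · exact hp.nonneg ω
    · intro s hs
      rw [if_neg]
      intro h
      exact hex ⟨s, hs, h⟩

end TI

theorem ti3_thm : TI3Stmt := by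
  classical
  intro Ω U _ p X V a B x M e hp ha haB hB hax hMx hM he hT
  obtain ⟨c, rfl⟩ := haB
  have hc : 0 < c := Nat.pos_of_mul_pos_left hB
  have haZ : (0 : ℤ) < a := by exact_mod_cast ha
  have hcZ : (0 : ℤ) < c := by exact_mod_cast hc
  have hM0 : (0 : ℝ) < M := by
    have : (2 : ℝ) ≤ M := by exact_mod_cast hM
    linarith only [this]
  have hL : 0 ≤ Real.log ((M : ℝ) / 2) := Real.log_nonneg (by
    rw [le_div_iff₀ (by norm_num)]
    have : (2 : ℝ) ≤ M := by exact_mod_cast hM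
    linarith only [this])
  set Ua : Ω → ℤ × U := fun ω => (X ω / (a : ℤ), V ω) with hUa
  set Qb : Ω → ℤ × U := fun ω => (X ω / ((a * c : ℕ) : ℤ), V ω) with hQb
  have hdiv : ∀ z : ℤ, z / ((a * c : ℕ) : ℤ) = z / (a : ℤ) / (c : ℤ) := by
    intro z
    push_cast
    rw [Int.ediv_ediv_of_nonneg haZ.le]
  -- the law of the shifted variable
  set nu : ℤ × U → ℝ := fun s =>
    (∑ j ∈ range M, law p (fun ω => ((X ω + j * x) / (a : ℤ), V ω)) s) / M with hnu
  set F : Finset (ℤ × U) := univ.image Ua with hF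
  set Bad : Finset (ℤ × U) := F.filter fun s => 2 * nu s < law p Ua s with hBad
  -- step 1: the bad values are rare
  have hj : ∀ j ∈ range M, ∑ s ∈ Bad, law p Ua s - M * e ≤
      ∑ s ∈ Bad, law p (fun ω => ((X ω + j * x) / (a : ℤ), V ω)) s := by
    intro j hj
    have h1 := (ti2_thm Ω U ℤ p X V x x e e hT hT).2.2 j {z | (z.1 / (a : ℤ), z.2) ∈ Bad}
    have e1 : Pr p {ω | (X ω, V ω) ∈ {z : ℤ × U | (z.1 / (a : ℤ), z.2) ∈ Bad}} =
        ∑ s ∈ Bad, law p Ua s := by
      rw [← Pr_eq_sum_law]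
      exact Pr_congr p fun ω => Iff.rfl
    have e2 : Pr p {ω | (X ω + j • (x : ℤ), V ω) ∈ {z : ℤ × U | (z.1 / (a : ℤ), z.2) ∈ Bad}} =
        ∑ s ∈ Bad, law p (fun ω => ((X ω + j * x) / (a : ℤ), V ω)) s := by
      rw [← Pr_eq_sum_law]
      exact Pr_congr p fun ω => by
        simp only [Set.mem_ofPred_eq, nsmul_eq_mul]
    rw [e1, e2, abs_le] at h1
    have h2 : (j : ℝ) * e ≤ M * e := by
      refine mul_le_mul_of_nonneg_right ?_ he
      exact_mod_cast (mem_range.1 hj).le
    linarith only [h1, h2, h1.2]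
  have hbad : ∑ s ∈ Bad, law p Ua s ≤ 2 * (M * e) := by
    have h1 : ∑ s ∈ Bad, nu s = (∑ j ∈ range M,
        ∑ s ∈ Bad, law p (fun ω => ((X ω + j * x) / (a : ℤ), V ω)) s) / M := by
      simp only [hnu]
      rw [← Finset.sum_div, Finset.sum_comm]
    have h2 : (M : ℝ) * (∑ s ∈ Bad, law p Ua s - M * e) ≤ ∑ j ∈ range M,
        ∑ s ∈ Bad, law p (fun ω => ((X ω + j * x) / (a : ℤ), V ω)) s := by
      have := Finset.card_nsmul_le_sum (range M) _ _ hj
      rwa [card_range, nsmul_eq_mul] at this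
    have h3 : ∑ s ∈ Bad, law p Ua s - M * e ≤ ∑ s ∈ Bad, nu s := by
      rw [h1, le_div_iff₀ hM0]
      linarith only [h2]
    have h4 : ∑ s ∈ Bad, 2 * nu s ≤ ∑ s ∈ Bad, law p Ua s :=
      Finset.sum_le_sum fun s hs => (mem_filter.1 hs).2.le
    rw [← Finset.mul_sum] at h4
    linarith only [h3, h4]
  -- step 2: the upper bound for the law of the shifted variable
  have hup : ∀ s : ℤ × U, M * nu s ≤ law p Qb (s.1 / (c : ℤ), s.2) +
      law p Qb (s.1 / (c : ℤ) - 1, s.2) + law p Qb (s.1 / (c : ℤ) - 2, s.2) := by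
    intro s
    have h1 : M * nu s = ∑ j ∈ range M, law p (fun ω => ((X ω + j * x) / (a : ℤ), V ω)) s := by
      simp only [hnu]
      rw [mul_div_cancel₀ _ hM0.ne']
    rw [h1]
    unfold law
    rw [Finset.sum_comm, ← Finset.sum_add_distrib, ← Finset.sum_add_distrib]
    refine Finset.sum_le_sum fun ω _ => ?_
    have hpω := hp.nonneg ω
    by_cases hex : ∃ j ∈ range M, ((X ω + j * x) / (a : ℤ), V ω) = s
    · obtain ⟨j, hj, hs⟩ := hex
      rw [Finset.sum_eq_single j]
      · rw [if_pos hs]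
        have hs1 : (X ω + j * x) / (a : ℤ) = s.1 := congrArg Prod.fst hs
        have hs2 : V ω = s.2 := congrArg Prod.snd hs
        have hq : s.1 / (c : ℤ) = (X ω + j * x) / ((a * c : ℕ) : ℤ) := by
          rw [hdiv, hs1]
        have hac : (0 : ℤ) < ((a * c : ℕ) : ℤ) := by exact_mod_cast hB
        have hjx : (j : ℤ) * x ≤ 2 * ((a * c : ℕ) : ℤ) := by
          have h2 : j + 1 ≤ M := mem_range.1 hj
          have h3 : (j + 1) * x ≤ 2 * (a * c) + x := (Nat.mul_le_mul_right x h2).trans hMx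
          have h4 : j * x ≤ 2 * (a * c) := by
            rw [Nat.add_mul, Nat.one_mul] at h3
            omega
          exact_mod_cast h4
        have hjx0 : (0 : ℤ) ≤ j * x := by positivity
        have l1 : X ω / ((a * c : ℕ) : ℤ) ≤ s.1 / (c : ℤ) := by
          rw [hq]
          exact Int.ediv_le_ediv hac (by linarith only [hjx0])
        have l2 : s.1 / (c : ℤ) ≤ X ω / ((a * c : ℕ) : ℤ) + 2 := by
          rw [hq, ← Int.add_mul_ediv_right _ _ hac.ne']
          exact Int.ediv_le_ediv hac (by linarith only [hjx])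
        have h3 : X ω / ((a * c : ℕ) : ℤ) = s.1 / (c : ℤ) ∨
            X ω / ((a * c : ℕ) : ℤ) = s.1 / (c : ℤ) - 1 ∨
            X ω / ((a * c : ℕ) : ℤ) = s.1 / (c : ℤ) - 2 := by omega
        rcases h3 with h3 | h3 | h3
        · have h4 : Qb ω = (s.1 / (c : ℤ), s.2) := Prod.ext h3 hs2
          rw [if_pos h4]
          split_ifs <;> linarith
        · have h4 : Qb ω = (s.1 / (c : ℤ) - 1, s.2) := Prod.ext h3 hs2
          rw [if_pos h4]
          split_ifs <;> linarith
        · have h4 : Qb ω = (s.1 / (c : ℤ) - 2, s.2) := Prod.ext h3 hs2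
          rw [if_pos h4]
          split_ifs <;> linarith
      · intro j' hj' hne
        rw [if_neg]
        intro hs'
        have e1 : (X ω + j' * x) / (a : ℤ) = (X ω + j * x) / (a : ℤ) :=
          (congrArg Prod.fst hs').trans (congrArg Prod.fst hs).symm
        have hstep : ∀ i i' : ℕ, i < i' →
            (X ω + i * x) / (a : ℤ) < (X ω + i' * x) / (a : ℤ) := by
          intro i i' hi
          have h2 : (i : ℤ) * x + x ≤ i' * x := by
            have h3 : (i + 1) * x ≤ i' * x := Nat.mul_le_mul_right x hi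
            have h4 : ((i : ℤ) + 1) * x ≤ i' * x := by exact_mod_cast h3
            linarith only [h3]
          have h5 : (a : ℤ) ≤ x := by exact_mod_cast hax
          have h6 : (X ω + i * x) / (a : ℤ) + 1 = (X ω + i * x + 1 * a) / (a : ℤ) := by
            rw [Int.add_mul_ediv_right _ _ haZ.ne']
          have h7 : (X ω + i * x + 1 * a) / (a : ℤ) ≤ (X ω + i' * x) / (a : ℤ) :=
            Int.ediv_le_ediv haZ (by linarith only [hax, h2])
          linarith only [h6, h7]
        rcases lt_trichotomy j j' with h2 | h2 | h2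
        · have := hstep j j' h2
          omega
        · exact hne h2.symm
        · have := hstep j' j h2
          omega
      · intro h
        exact absurd hj h
    · rw [Finset.sum_eq_zero]
      · split_ifs <;> linarith
      · intro j hj
        rw [if_neg]
        intro h
        exact hex ⟨j, hj, h⟩
  -- step 3: the sum
  have r1 := ratio_le p hp Qb (fun s : ℤ × U => (s.1 - 1, s.2)) (by
    intro s s' h
    have h1 := Prod.ext_iff.1 h
    exact Prod.ext (by have := h1.1; simp only at this; linarith only [h1]) h1.2)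
  have r2 := ratio_le p hp Qb (fun s : ℤ × U => (s.1 - 2, s.2)) (by
    intro s s' h
    have h1 := Prod.ext_iff.1 h
    exact Prod.ext (by have := h1.1; simp only at this; linarith only [h1]) h1.2)
  have hCH : CH p (fun ω => X ω / (a : ℤ)) (fun ω => (X ω / ((a * c : ℕ) : ℤ), V ω)) =
      H p Ua - H p Qb := by
    unfold CH
    rw [H_congr hp.nonneg (X := Ua)
      (Y := fun ω => (X ω / (a : ℤ), (X ω / ((a * c : ℕ) : ℤ), V ω)))]
    · intro ω ω' _ _ h
      have h1 := Prod.ext_iff.1 h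
      have h2 : X ω / (a : ℤ) = X ω' / (a : ℤ) := h1.1
      exact Prod.ext h2 (Prod.ext (by simp only [hdiv, h2]) h1.2)
    · intro ω ω' _ _ h
      have h1 := Prod.ext_iff.1 h
      exact Prod.ext h1.1 (Prod.ext_iff.1 h1.2).2
  rw [hCH]
  have hterm : ∀ ω, p ω * ((if Ua ω ∈ Bad then 0 else Real.log ((M : ℝ) / 2)) -
      law p Qb ((Qb ω).1 - 1, (Qb ω).2) / law p Qb (Qb ω) -
      law p Qb ((Qb ω).1 - 2, (Qb ω).2) / law p Qb (Qb ω)) ≤
      -(p ω * Real.log (law p Ua (Ua ω))) + p ω * Real.log (law p Qb (Qb ω)) := by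
    intro ω
    rcases (hp.nonneg ω).eq_or_lt with h0 | h0
    · rw [← h0]
      simp
    have u0 : 0 < law p Ua (Ua ω) := law_pos hp.nonneg Ua h0
    have q0 : 0 < law p Qb (Qb ω) := law_pos hp.nonneg Qb h0
    have n1 := law_nonneg hp.nonneg Qb ((Qb ω).1 - 1, (Qb ω).2)
    have n2 := law_nonneg hp.nonneg Qb ((Qb ω).1 - 2, (Qb ω).2)
    have d1 : 0 ≤ law p Qb ((Qb ω).1 - 1, (Qb ω).2) / law p Qb (Qb ω) := div_nonneg n1 q0.le
    have d2 : 0 ≤ law p Qb ((Qb ω).1 - 2, (Qb ω).2) / law p Qb (Qb ω) := div_nonneg n2 q0.le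
    rw [← mul_neg, ← mul_add]
    refine mul_le_mul_of_nonneg_left ?_ h0.le
    by_cases hb : Ua ω ∈ Bad
    · rw [if_pos hb]
      have huq : law p Ua (Ua ω) ≤ law p Qb (Qb ω) := by
        refine law_mono_of_det hp.nonneg ?_ h0
        intro ω' ω'' _ _ h
        have h1 := Prod.ext_iff.1 h
        have h2 : X ω' / (a : ℤ) = X ω'' / (a : ℤ) := h1.1
        exact Prod.ext (by simp only [hQb, hdiv, h2]) h1.2
      have := Real.log_le_log u0 huq
      linarith only [d1, d2, this]
    · rw [if_neg hb]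
      have hle : law p Ua (Ua ω) ≤ 2 * nu (Ua ω) := by
        by_contra hcon
        push Not at hcon
        exact hb (mem_filter.2 ⟨mem_image_of_mem _ (mem_univ _), hcon⟩)
      have h1 := hup (Ua ω)
      have hQe : ((Ua ω).1 / (c : ℤ), (Ua ω).2) = Qb ω := by
        simp only [hUa, hQb, hdiv]
      have hQ1 : (Ua ω).1 / (c : ℤ) = (Qb ω).1 := (Prod.ext_iff.1 hQe).1
      have hQ2 : (Ua ω).2 = (Qb ω).2 := (Prod.ext_iff.1 hQe).2
      rw [hQe, hQ1, hQ2] at h1
      set y : ℝ := law p Qb ((Qb ω).1 - 1, (Qb ω).2) / law p Qb (Qb ω) +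
        law p Qb ((Qb ω).1 - 2, (Qb ω).2) / law p Qb (Qb ω) with hy
      have hy0 : 0 ≤ y := add_nonneg d1 d2
      have h2 : law p Qb (Qb ω) + law p Qb ((Qb ω).1 - 1, (Qb ω).2) +
          law p Qb ((Qb ω).1 - 2, (Qb ω).2) = law p Qb (Qb ω) * (1 + y) := by
        rw [hy]
        field_simp
        ring
      have h3 : law p Ua (Ua ω) ≤ (law p Qb (Qb ω) * (1 + y)) / (M / 2) := by
        rw [le_div_iff₀ (by positivity)]
        rw [h2] at h1
        nlinarith only [h1, hle]
      have h4 := Real.log_le_log u0 h3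
      rw [Real.log_div (by positivity) (by positivity),
        Real.log_mul q0.ne' (by positivity)] at h4
      have h5 : Real.log (1 + y) ≤ y := by
        have := Real.log_le_sub_one_of_pos (x := 1 + y) (by positivity)
        linarith only [this]
      linarith only [h4, h5]
  have hsum := Finset.sum_le_sum fun ω (_ : ω ∈ univ) => hterm ω
  have e1 : ∑ ω, (-(p ω * Real.log (law p Ua (Ua ω))) + p ω * Real.log (law p Qb (Qb ω))) =
      H p Ua - H p Qb := by
    unfold H
    rw [Finset.sum_add_distrib, Finset.sum_neg_distrib]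
    ring
  rw [e1] at hsum
  refine le_trans ?_ hsum
  simp only [mul_sub, Finset.sum_sub_distrib]
  have e2 : ∑ ω, p ω * (if Ua ω ∈ Bad then 0 else Real.log ((M : ℝ) / 2)) =
      (1 - ∑ s ∈ Bad, law p Ua s) * Real.log ((M : ℝ) / 2) := by
    rw [← Pr_eq_sum_law, Pr_eq, ← hp.sum_one, ← Finset.sum_sub_distrib, Finset.sum_mul]
    refine Finset.sum_congr rfl fun ω _ => ?_
    by_cases h : Ua ω ∈ Bad
    · simp [h]
    · simp [h]
  rw [e2]
  have h6 : (1 - 2 * (M * e)) * Real.log ((M : ℝ) / 2) ≤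
      (1 - ∑ s ∈ Bad, law p Ua s) * Real.log ((M : ℝ) / 2) :=
    mul_le_mul_of_nonneg_right (by linarith only [hbad]) hL
  linarith only [r1, r2, h6]

/-! ### Two-sided independence -/

namespace TI

/-- A bounded function of a variable which is nearly independent of a label has nearly the same
mean on every value of the label. -/
lemma indep_mean {Ω T S : Type} [Fintype Ω] [DecidableEq S] (p : Ω → ℝ) (hp : IsLaw p)
    (Y : Ω → T) (o : Ω → S) (s : S) (f : T → ℝ) (e : ℝ) (h0 : ∀ t, 0 ≤ f t) (h1 : ∀ t, f t ≤ 1)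
    (hI : H p Y + H p o - H p (fun ω => (Y ω, o ω)) ≤ e) :
    |∑ ω, (if o ω = s then p ω * f (Y ω) else 0) - law p o s * ∑ ω, p ω * f (Y ω)| ≤
      Real.sqrt e := by
  classical
  by_cases hs : s ∈ univ.image o
  · have hpin := Pool.KVA.pinsker p Y o hp.nonneg hp.sum_one
    have hsq := Real.sqrt_le_sqrt hI
    have a1 : ∑ ω, (if o ω = s then p ω * f (Y ω) else 0) =
        ∑ t ∈ univ.image Y, law p (fun ω => (Y ω, o ω)) (t, s) * f t := by
      unfold law
      simp_rw [Finset.sum_mul]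
      rw [Finset.sum_comm]
      refine Finset.sum_congr rfl fun ω _ => ?_
      rw [Finset.sum_eq_single (Y ω)]
      · by_cases h : o ω = s
        · rw [if_pos h, if_pos (show (Y ω, o ω) = (Y ω, s) from Prod.ext rfl h)]
        · rw [if_neg h, if_neg (by intro h'; exact h (Prod.ext_iff.1 h').2), zero_mul]
      · intro t _ ht
        rw [if_neg (by intro h'; exact ht (Prod.ext_iff.1 h').1.symm), zero_mul]
      · intro h
        exact absurd (Finset.mem_image_of_mem Y (Finset.mem_univ ω)) h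
    have a2 : ∑ ω, p ω * f (Y ω) = ∑ t ∈ univ.image Y, law p Y t * f t :=
      sum_mul_eq_sum_image p Y f
    have a3 : ∑ t ∈ univ.image Y, law p (fun ω => (Y ω, o ω)) (t, s) = law p o s := by
      unfold law
      rw [Finset.sum_comm]
      refine Finset.sum_congr rfl fun ω _ => ?_
      rw [Finset.sum_eq_single (Y ω)]
      · by_cases h : o ω = s
        · rw [if_pos h, if_pos (show (Y ω, o ω) = (Y ω, s) from Prod.ext rfl h)]
        · rw [if_neg h, if_neg (by intro h'; exact h (Prod.ext_iff.1 h').2)]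
      · intro t _ ht
        rw [if_neg (by intro h'; exact ht (Prod.ext_iff.1 h').1.symm)]
      · intro h
        exact absurd (Finset.mem_image_of_mem Y (Finset.mem_univ ω)) h
    have a4 : ∑ t ∈ univ.image Y, law p Y t = 1 := by
      rw [sum_law, hp.sum_one]
    have a5 : ∑ ω, (if o ω = s then p ω * f (Y ω) else 0) - law p o s * ∑ ω, p ω * f (Y ω) =
        ∑ t ∈ univ.image Y, (law p (fun ω => (Y ω, o ω)) (t, s) - law p Y t * law p o s) *
          (f t - 1 / 2) := by
      have b1 : ∑ t ∈ univ.image Y, (law p (fun ω => (Y ω, o ω)) (t, s) -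
          law p Y t * law p o s) * (f t - 1 / 2) =
          ∑ t ∈ univ.image Y, law p (fun ω => (Y ω, o ω)) (t, s) * f t -
          law p o s * ∑ t ∈ univ.image Y, law p Y t * f t -
          1 / 2 * (∑ t ∈ univ.image Y, law p (fun ω => (Y ω, o ω)) (t, s) -
            law p o s * ∑ t ∈ univ.image Y, law p Y t) := by
        rw [Finset.mul_sum, Finset.mul_sum, ← Finset.sum_sub_distrib, ← Finset.sum_sub_distrib,
          Finset.mul_sum, ← Finset.sum_sub_distrib]
        exact Finset.sum_congr rfl fun t _ => by ring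
      rw [b1, a1, a2, a3, a4]
      ring
    rw [a5]
    have a6 : ∑ t ∈ univ.image Y, |law p (fun ω => (Y ω, o ω)) (t, s) - law p Y t * law p o s| ≤
        ∑ g ∈ (univ.image Y) ×ˢ (univ.image o), |law p (fun ω => (Y ω, o ω)) g -
          law p Y g.1 * law p o g.2| := by
      rw [Finset.sum_product]
      refine Finset.sum_le_sum fun t _ => ?_
      exact Finset.single_le_sum (f := fun s => |law p (fun ω => (Y ω, o ω)) (t, s) -
        law p Y t * law p o s|) (fun _ _ => abs_nonneg _) hs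
    have a7 : |∑ t ∈ univ.image Y, (law p (fun ω => (Y ω, o ω)) (t, s) - law p Y t * law p o s) *
          (f t - 1 / 2)| ≤ 1 / 2 * ∑ t ∈ univ.image Y,
            |law p (fun ω => (Y ω, o ω)) (t, s) - law p Y t * law p o s| := by
      refine (Finset.abs_sum_le_sum_abs _ _).trans ?_
      rw [Finset.mul_sum]
      refine Finset.sum_le_sum fun t _ => ?_
      rw [abs_mul, mul_comm]
      refine mul_le_mul_of_nonneg_right ?_ (abs_nonneg _)
      rw [abs_le]
      constructor <;> linarith [h0 t, h1 t]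
    linarith only [hpin, hsq, a6, a7]
  · have b1 : law p o s = 0 := law_eq_zero_of_notMem p o hs
    have b2 : ∑ ω, (if o ω = s then p ω * f (Y ω) else 0) = 0 := by
      refine Finset.sum_eq_zero fun ω _ => ?_
      rw [if_neg]
      intro h
      exact hs (by rw [← h]; exact Finset.mem_image_of_mem _ (mem_univ _))
    rw [b1, b2]
    simp [Real.sqrt_nonneg]

open Classical in
/-- The proportion of the shifts by vectors of a box which are in a set. -/
noncomputable def avg (d N : ℕ) (E : Set (Fin d → ℤ)) (x : Fin d → ℤ) : ℝ :=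
  ((univ.filter fun τ : Fin d → Fin N => (fun i => x i + ((τ i : ℕ) : ℤ)) ∈ E).card : ℝ) /
    (N : ℝ) ^ d

lemma avg_nonneg {d N : ℕ} (E : Set (Fin d → ℤ)) (x : Fin d → ℤ) : 0 ≤ avg d N E x := by
  unfold avg
  positivity

lemma avg_le_one {d N : ℕ} (hN : 0 < N) (E : Set (Fin d → ℤ)) (x : Fin d → ℤ) :
    avg d N E x ≤ 1 := by
  classical
  unfold avg
  rw [div_le_one (by positivity)]
  have h := Finset.card_filter_le (univ : Finset (Fin d → Fin N))
    (fun τ => (fun i => x i + ((τ i : ℕ) : ℤ)) ∈ E)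
  rw [card_univ, Fintype.card_fun, Fintype.card_fin, Fintype.card_fin] at h
  exact_mod_cast h

/-- The values which leave an interval under a shift. -/
lemma card_out (N : ℕ) (c : ℤ) :
    (univ.filter fun t : Fin N => ¬ (0 ≤ ((t : ℕ) : ℤ) + c ∧ ((t : ℕ) : ℤ) + c < N)).card ≤
      c.natAbs := by
  classical
  rw [← card_range c.natAbs]
  refine Finset.card_le_card_of_injOn (fun t => if 0 ≤ c then N - 1 - (t : ℕ) else (t : ℕ)) ?_ ?_
  · intro t ht
    have h1 : t ∈ univ.filter fun t : Fin N =>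
      ¬ (0 ≤ ((t : ℕ) : ℤ) + c ∧ ((t : ℕ) : ℤ) + c < N) := ht
    have h2 := (mem_filter.1 h1).2
    have h3 := t.2
    show (if 0 ≤ c then N - 1 - (t : ℕ) else (t : ℕ)) ∈ ((range c.natAbs : Finset ℕ) : Set ℕ)
    rw [mem_coe, mem_range]
    split_ifs with h <;> omega
  · intro t _ t' _ h
    have h3 := t.2
    have h4 := t'.2
    have h5 : (if 0 ≤ c then N - 1 - (t : ℕ) else (t : ℕ)) =
      (if 0 ≤ c then N - 1 - (t' : ℕ) else (t' : ℕ)) := h
    split_ifs at h5 <;> exact Fin.ext (by omega)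

lemma avg_shift_le {d N : ℕ} (hN : 0 < N) (E : Set (Fin d → ℤ)) (x c : Fin d → ℤ) :
    avg d N E (x + c) ≤ avg d N E x + (∑ i, |(c i : ℝ)|) / N := by
  classical
  have hN0 : (0 : ℝ) < N := by exact_mod_cast hN
  set S1 : Finset (Fin d → Fin N) :=
    univ.filter fun τ => (fun i => (x + c) i + ((τ i : ℕ) : ℤ)) ∈ E with hS1
  set S2 : Finset (Fin d → Fin N) :=
    univ.filter fun τ => (fun i => x i + ((τ i : ℕ) : ℤ)) ∈ E with hS2
  set W : Fin d → Finset (Fin d → Fin N) := fun i =>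
    univ.filter fun τ => ¬ (0 ≤ ((τ i : ℕ) : ℤ) + c i ∧ ((τ i : ℕ) : ℤ) + c i < N) with hW
  have hWc : ∀ i, ((W i).card : ℝ) * N ≤ |(c i : ℝ)| * (N : ℝ) ^ d := by
    intro i
    have hd : 0 < d := lt_of_le_of_lt (Nat.zero_le _) i.2
    set T : Finset (Fin N) :=
      univ.filter fun t => ¬ (0 ≤ ((t : ℕ) : ℤ) + c i ∧ ((t : ℕ) : ℤ) + c i < N) with hT
    have h1 : W i ⊆ T.biUnion fun a => univ.filter fun τ : Fin d → Fin N => τ i = a := by
      intro τ hτ
      rw [mem_biUnion]
      exact ⟨τ i, mem_filter.2 ⟨mem_univ _, (mem_filter.1 hτ).2⟩, mem_filter.2 ⟨mem_univ _, rfl⟩⟩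
    have h2 : ∀ a ∈ T, (univ.filter fun τ : Fin d → Fin N => τ i = a).card ≤ N ^ (d - 1) := by
      intro a _
      have h3 := Fintype.card_filter_piFinset_const_eq_of_mem (κ := Fin N) (univ : Finset (Fin N))
        i (mem_univ a)
      rw [Fintype.piFinset_univ, card_univ, Fintype.card_fin, Fintype.card_fin] at h3
      exact h3.le
    have h4 := (card_le_card h1).trans ((card_biUnion_le).trans (sum_le_card_nsmul T _ _ h2))
    rw [smul_eq_mul] at h4
    have h5 : (W i).card ≤ (c i).natAbs * N ^ (d - 1) :=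
      h4.trans (Nat.mul_le_mul_right _ (card_out N (c i)))
    have h6 : ((W i).card : ℝ) ≤ ((c i).natAbs : ℝ) * (N : ℝ) ^ (d - 1) := by exact_mod_cast h5
    have h7 : ((c i).natAbs : ℝ) = |(c i : ℝ)| := by
      rw [Nat.cast_natAbs, Int.cast_abs]
    have h8 : (N : ℝ) ^ d = (N : ℝ) ^ (d - 1) * N := by
      rw [← pow_succ, Nat.sub_add_cancel hd]
    rw [h7] at h6
    rw [h8, ← mul_assoc]
    exact mul_le_mul_of_nonneg_right h6 hN0.le
  -- the map
  set φ : (Fin d → Fin N) → Fin d → Fin N := fun τ i =>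
    if h : 0 ≤ ((τ i : ℕ) : ℤ) + c i ∧ ((τ i : ℕ) : ℤ) + c i < N then
      ⟨(((τ i : ℕ) : ℤ) + c i).toNat, by omega⟩ else τ i with hφ
  have hφv : ∀ τ i, 0 ≤ ((τ i : ℕ) : ℤ) + c i ∧ ((τ i : ℕ) : ℤ) + c i < N →
      ((φ τ i : ℕ) : ℤ) = ((τ i : ℕ) : ℤ) + c i := by
    intro τ i h
    simp only [hφ, dif_pos h]
    exact Int.toNat_of_nonneg h.1
  have hnot : ∀ τ, τ ∉ univ.biUnion W → ∀ i,
      0 ≤ ((τ i : ℕ) : ℤ) + c i ∧ ((τ i : ℕ) : ℤ) + c i < N := by
    intro τ hτ i
    by_contra h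
    exact hτ (mem_biUnion.2 ⟨i, mem_univ _, mem_filter.2 ⟨mem_univ _, h⟩⟩)
  have hcard : (S1 \ univ.biUnion W).card ≤ S2.card := by
    refine Finset.card_le_card_of_injOn φ ?_ ?_
    · intro τ hτ
      have hτ' : τ ∈ S1 \ univ.biUnion W := hτ
      have h1 := (mem_sdiff.1 hτ').1
      have h2 := hnot τ (mem_sdiff.1 hτ').2
      show φ τ ∈ ((S2 : Finset _) : Set _)
      rw [mem_coe, hS2, mem_filter]
      refine ⟨mem_univ _, ?_⟩
      have h3 := (mem_filter.1 h1).2
      have h4 : (fun i => x i + ((φ τ i : ℕ) : ℤ)) = fun i => (x + c) i + ((τ i : ℕ) : ℤ) := by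
        funext i
        rw [hφv τ i (h2 i), Pi.add_apply]
        ring
      rw [h4]
      exact h3
    · intro τ hτ τ' hτ' h
      have h1 : τ ∈ S1 \ univ.biUnion W := hτ
      have h1' : τ' ∈ S1 \ univ.biUnion W := hτ'
      have h2 := hnot τ (mem_sdiff.1 h1).2
      have h2' := hnot τ' (mem_sdiff.1 h1').2
      funext i
      have h3 := hφv τ i (h2 i)
      have h4 := hφv τ' i (h2' i)
      rw [h] at h3
      exact Fin.ext (by omega)
  have h1 : S1.card ≤ S2.card + ∑ i, (W i).card := by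
    have e1 : S1.card ≤ (S1 \ univ.biUnion W).card + (univ.biUnion W).card := by
      exact card_le_card_sdiff_add_card
    have e2 : (univ.biUnion W).card ≤ ∑ i, (W i).card := card_biUnion_le
    omega
  have h2 : (S1.card : ℝ) ≤ S2.card + ∑ i, ((W i).card : ℝ) := by exact_mod_cast h1
  have h3 : (∑ i, ((W i).card : ℝ)) * N ≤ (∑ i, |(c i : ℝ)|) * (N : ℝ) ^ d := by
    rw [Finset.sum_mul, Finset.sum_mul]
    exact Finset.sum_le_sum fun i _ => hWc i
  have hNd : (0 : ℝ) < (N : ℝ) ^ d := by positivity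
  have h4 : (∑ i, ((W i).card : ℝ)) / (N : ℝ) ^ d ≤ (∑ i, |(c i : ℝ)|) / N := by
    rw [div_le_div_iff₀ hNd hN0]
    exact h3
  have h5 : avg d N E (x + c) = (S1.card : ℝ) / (N : ℝ) ^ d := rfl
  have h6 : avg d N E x = (S2.card : ℝ) / (N : ℝ) ^ d := rfl
  rw [h5, h6]
  have h7 : (S1.card : ℝ) / (N : ℝ) ^ d ≤
      (S2.card + ∑ i, ((W i).card : ℝ)) / (N : ℝ) ^ d := by
    gcongr
  rw [add_div] at h7
  linarith only [h4, h7]

lemma avg_shift {d N : ℕ} (hN : 0 < N) (E : Set (Fin d → ℤ)) (x c : Fin d → ℤ) (R : ℝ)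
    (hc : ∀ i, |(c i : ℝ)| ≤ R) :
    |avg d N E (x + c) - avg d N E x| ≤ d * R / N := by
  have hN0 : (0 : ℝ) < N := by exact_mod_cast hN
  have h1 := avg_shift_le hN E x c
  have h2 := avg_shift_le hN E (x + c) (-c)
  rw [add_neg_cancel_right] at h2
  have h3 : (∑ i, |(c i : ℝ)|) / N ≤ d * R / N := by
    have h4 : ∑ i, |(c i : ℝ)| ≤ d * R := by
      have := Finset.sum_le_card_nsmul (univ : Finset (Fin d)) (fun i => |(c i : ℝ)|) R
        fun i _ => hc i
      rwa [card_univ, Fintype.card_fin, nsmul_eq_mul] at this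
    gcongr
  have h4 : (∑ i, |((-c) i : ℝ)|) = ∑ i, |(c i : ℝ)| := by
    refine Finset.sum_congr rfl fun i _ => ?_
    rw [Pi.neg_apply, Int.cast_neg, abs_neg]
  have h5 : (∑ i, |(((-c) i : ℤ) : ℝ)|) / N = (∑ i, |(c i : ℝ)|) / N := by
    rw [← h4]
  rw [abs_le]
  constructor <;> linarith

/-- Probability of an event for a sample and an independent shift. -/
lemma Pr_smp {Ω : Type} [Fintype Ω] {d N : ℕ} (p : Ω → ℝ) (X : Ω → Fin d → ℤ)
    (E : Ω → Set (Fin d → ℤ)) :
    Pr (smp d N p) {w | smX (N := N) X w ∈ E w.1} = ∑ ω, p ω * avg d N (E ω) (X ω) := by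
  classical
  rw [Pr_eq, Fintype.sum_prod_type]
  refine Finset.sum_congr rfl fun ω _ => ?_
  unfold avg smp
  simp only
  rw [← Finset.sum_filter, Finset.sum_const, nsmul_eq_mul]
  have h : (univ.filter fun τ : Fin d → Fin N => (ω, τ) ∈
      {w : Ω × (Fin d → Fin N) | smX (N := N) X w ∈ E w.1}) =
      univ.filter fun τ : Fin d → Fin N => (fun i => X ω i + ((τ i : ℕ) : ℤ)) ∈ E ω := by
    refine Finset.filter_congr fun τ _ => ?_
    exact Iff.rfl
  rw [h]
  ring

end TI

theorem ti1_thm : TI1Stmt := by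
  classical
  intro d N Ω S U _ p X A V o g B R e₁ e₂ s s' hp hN hR hB hX hA hs hs'
  -- one label
  have key : ∀ (E : Set ((Fin d → ℤ) × U)) (s : S), 0 < law p o s →
      |∑ ω, p ω * avg d N {y | (y, V ω) ∈ E} (X ω) -
        ∑ ω, p ω * avg d N {y | (y, V ω) ∈ E} (A ω + g s)| ≤
      (Real.sqrt e₁ + Real.sqrt e₂ + Pr p B) / law p o s + d * R / N := by
    intro E s hs
    have i1 := indep_mean p hp (fun ω => (X ω, V ω)) o s
      (fun z => avg d N {y | (y, z.2) ∈ E} z.1) e₁ (fun z => avg_nonneg _ _)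
      (fun z => avg_le_one hN _ _) hX
    have i2 := indep_mean p hp (fun ω => (A ω, V ω)) o s
      (fun z => avg d N {y | (y, z.2) ∈ E} (z.1 + g s)) e₂ (fun z => avg_nonneg _ _)
      (fun z => avg_le_one hN _ _) hA
    have i3 : |∑ ω, (if o ω = s then p ω * avg d N {y | (y, V ω) ∈ E} (X ω) else 0) -
        ∑ ω, (if o ω = s then p ω * avg d N {y | (y, V ω) ∈ E} (A ω + g s) else 0)| ≤
        Pr p B + law p o s * (d * R / N) := by
      rw [← Finset.sum_sub_distrib]
      refine (Finset.abs_sum_le_sum_abs _ _).trans ?_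
      rw [Pr_eq]
      unfold law
      rw [Finset.sum_mul, ← Finset.sum_add_distrib]
      refine Finset.sum_le_sum fun ω _ => ?_
      have hpω := hp.nonneg ω
      have hRN : 0 ≤ (d : ℝ) * R / N := by positivity
      by_cases ho : o ω = s
      · rw [if_pos ho, if_pos ho, if_pos ho, ← mul_sub, abs_mul, abs_of_nonneg hpω]
        have m1 := avg_nonneg (N := N) {y | (y, V ω) ∈ E} (X ω)
        have m2 := avg_le_one hN {y | (y, V ω) ∈ E} (X ω)
        have m3 := avg_nonneg (N := N) {y | (y, V ω) ∈ E} (A ω + g s)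
        have m4 := avg_le_one hN {y | (y, V ω) ∈ E} (A ω + g s)
        by_cases hb : ω ∈ B
        · rw [if_pos hb]
          have h1 : |avg d N {y | (y, V ω) ∈ E} (X ω) -
              avg d N {y | (y, V ω) ∈ E} (A ω + g s)| ≤ 1 := by
            rw [abs_le]
            constructor <;> linarith
          have h2 := mul_le_mul_of_nonneg_left h1 hpω
          have h3 := mul_nonneg hpω hRN
          linarith only [h2, h3]
        · rw [if_neg hb]
          have h1 := avg_shift hN {y | (y, V ω) ∈ E} (A ω + g s) (X ω - A ω - g s) R (by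
            intro i
            have := hB ω hb i
            rwa [ho] at this)
          have h2 : A ω + g s + (X ω - A ω - g s) = X ω := by abel
          rw [h2] at h1
          have h3 := mul_le_mul_of_nonneg_left h1 hpω
          linarith only [h3]
      · rw [if_neg ho, if_neg ho, if_neg ho, sub_zero, abs_zero]
        split_ifs <;> linarith
    simp only at i1 i2
    set Ex := ∑ ω, p ω * avg d N {y | (y, V ω) ∈ E} (X ω) with hEx
    set Ea := ∑ ω, p ω * avg d N {y | (y, V ω) ∈ E} (A ω + g s) with hEa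
    set Lx := ∑ ω, (if o ω = s then p ω * avg d N {y | (y, V ω) ∈ E} (X ω) else 0) with hLx
    set La := ∑ ω, (if o ω = s then p ω * avg d N {y | (y, V ω) ∈ E} (A ω + g s) else 0)
      with hLa
    have i4 : law p o s * |Ex - Ea| ≤
        Real.sqrt e₁ + Real.sqrt e₂ + Pr p B + law p o s * (d * R / N) := by
      rw [← abs_of_pos hs, ← abs_mul, abs_of_pos hs]
      rw [abs_le] at i1 i2 i3 ⊢
      constructor <;> nlinarith only [i1, i2, i3, i1.1, i1.2, i2.1, i2.2, i3.1, i3.2]
    rw [← sub_nonneg]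
    have i5 : (Real.sqrt e₁ + Real.sqrt e₂ + Pr p B) / law p o s + d * R / N - |Ex - Ea| =
        (Real.sqrt e₁ + Real.sqrt e₂ + Pr p B + law p o s * (d * R / N) -
          law p o s * |Ex - Ea|) / law p o s := by
      field_simp
    rw [i5]
    exact div_nonneg (by linarith only [i4]) hs.le
  intro E
  have k1 := key E s hs
  have k2 := key {z | (z.1 + (g s - g s'), z.2) ∈ E} s' hs'
  have e1 : Pr (smp d N p) {w | (smX (N := N) X w, V w.1) ∈ E} =
      ∑ ω, p ω * avg d N {y | (y, V ω) ∈ E} (X ω) :=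
    Pr_smp p X fun ω => {y | (y, V ω) ∈ E}
  have e2 : Pr (smp d N p) {w | (smX (N := N) X w + (g s - g s'), V w.1) ∈ E} =
      ∑ ω, p ω * avg d N {y | (y, V ω) ∈
        {z : (Fin d → ℤ) × U | (z.1 + (g s - g s'), z.2) ∈ E}} (X ω) :=
    Pr_smp p X fun ω => {y | (y + (g s - g s'), V ω) ∈ E}
  have e3 : ∑ ω, p ω * avg d N {y | (y, V ω) ∈
        {z : (Fin d → ℤ) × U | (z.1 + (g s - g s'), z.2) ∈ E}} (A ω + g s') =
      ∑ ω, p ω * avg d N {y | (y, V ω) ∈ E} (A ω + g s) := by
    refine Finset.sum_congr rfl fun ω _ => ?_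
    have h : avg d N {y | (y, V ω) ∈
        {z : (Fin d → ℤ) × U | (z.1 + (g s - g s'), z.2) ∈ E}} (A ω + g s') =
        avg d N {y | (y, V ω) ∈ E} (A ω + g s) := by
      unfold avg
      have h1 : (univ.filter fun τ : Fin d → Fin N =>
          (fun i => (A ω + g s') i + ((τ i : ℕ) : ℤ)) ∈ {y | (y, V ω) ∈
            {z : (Fin d → ℤ) × U | (z.1 + (g s - g s'), z.2) ∈ E}}) =
          univ.filter fun τ : Fin d → Fin N =>
            (fun i => (A ω + g s) i + ((τ i : ℕ) : ℤ)) ∈ {y | (y, V ω) ∈ E} := by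
        refine Finset.filter_congr fun τ _ => ?_
        have h2 : (fun i => (A ω + g s') i + ((τ i : ℕ) : ℤ)) + (g s - g s') =
            fun i => (A ω + g s) i + ((τ i : ℕ) : ℤ) := by
          funext i
          simp only [Pi.add_apply, Pi.sub_apply]
          ring
        show ((fun i => (A ω + g s') i + ((τ i : ℕ) : ℤ)) + (g s - g s'), V ω) ∈ E ↔
          ((fun i => (A ω + g s) i + ((τ i : ℕ) : ℤ)), V ω) ∈ E
        rw [h2]
      rw [h1]
    rw [h]
  rw [e3] at k2
  rw [e1, e2]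
  rw [abs_le] at k1 k2 ⊢
  have h2 : 2 * ((d : ℝ) * R / N) = d * R / N + d * R / N := by ring
  rw [h2]
  constructor <;> linarith only [k1, k2, k1.1, k1.2, k2.1, k2.2]

end Pool.KAL
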